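import Pool.Agent.Y734.N.Stms

/-!
# Job RE over number fields: rational cross ratios and Euler's identity

Port of `Pool/Agent/Y734/M/RE/Main.lean` (helper475) by helper448.
-/

set_option autoImplicit false

namespace Pool.Agent.Y734.N.RE

open Pool.Agent.Y734.M

/-- the conjugation of a quadratic extension -/
theorem exists_conj (k L : Type) [Field k] [CharZero k] [Field L] [Algebra k L]
    (h : Module.finrank k L = 2) :
    ∃ s : L ≃ₐ[k] L, (∀ x : L, algebraMap k L (Algebra.norm k x) = x * s x) ∧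
      ∀ x : L, s x = x → ∃ q : k, x = algebraMap k L q := by
  classical
  have hq : Algebra.IsQuadraticExtension k L := ⟨h⟩
  have hg : IsGalois k L := inferInstance
  have hc : Nat.card (L ≃ₐ[k] L) = 2 := by rw [IsGalois.card_aut_eq_finrank, h]
  obtain ⟨s, hs1, hs2⟩ := (Nat.card_eq_two_iff' (1 : L ≃ₐ[k] L)).1 hc
  have hall : ∀ τ : L ≃ₐ[k] L, τ = 1 ∨ τ = s := by
    intro τ
    by_cases hτ : τ = 1
    · exact Or.inl hτ
    · exact Or.inr (hs2 τ hτ)
  refine ⟨s, fun x => ?_, fun x hx => ?_⟩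
  · rw [Algebra.norm_eq_prod_automorphisms]
    have hu : (Finset.univ : Finset (L ≃ₐ[k] L)) = {1, s} := by
      ext τ
      simpa using hall τ
    rw [hu, Finset.prod_insert (by simpa using Ne.symm hs1), Finset.prod_singleton]
    rfl
  · have h1 := (IsGalois.mem_bot_iff_fixed (F := k) (E := L) x).2 (fun τ => by
      rcases hall τ with rfl | rfl
      · rfl
      · exact hx)
    obtain ⟨q, hq'⟩ := IntermediateField.mem_bot.1 h1
    exact ⟨q, hq'.symm⟩

variable {L : Type} [Field L]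

theorem ne012 (n : ℕ) : (0 : Fin (n + 3)) ≠ 1 ∧ (0 : Fin (n + 3)) ≠ 2 ∧
    (1 : Fin (n + 3)) ≠ 2 := by
  have v0 : ((0 : Fin (n + 3)) : ℕ) = 0 := rfl
  have v1 : ((1 : Fin (n + 3)) : ℕ) = 1 := Nat.mod_eq_of_lt (show 1 < n + 3 by omega)
  have v2 : ((2 : Fin (n + 3)) : ℕ) = 2 := Nat.mod_eq_of_lt (show 2 < n + 3 by omega)
  refine ⟨fun h => ?_, fun h => ?_, fun h => ?_⟩
  · have h1 := congrArg Fin.val h
    rw [v0, v1] at h1
    omega
  · have h1 := congrArg Fin.val h
    rw [v0, v2] at h1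
    omega
  · have h1 := congrArg Fin.val h
    rw [v1, v2] at h1
    omega

/-- the Plücker relation -/
theorem plk (A B C D : Fin 2 → L) : dt A B * dt C D - dt A C * dt B D + dt A D * dt B C = 0 := by
  unfold dt
  ring

theorem sc_ne {n : ℕ} {P : Fin (n + 3) → Fin 2 → L} (hN : Nd P) (i : Fin (n + 3)) :
    sc P i ≠ 0 := by
  obtain ⟨h01, h02, h12⟩ := ne012 n
  unfold sc
  split_ifs with h
  · exact hN 1 2 h12
  · exact div_ne_zero (mul_ne_zero (hN 0 1 h01) (hN 0 2 h02)) (hN 0 i (Ne.symm h))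

theorem rat : RatStmt := by
  intro K L _ _ _ _ hL n P hN f hf hH
  obtain ⟨s, hs, hfix⟩ := exists_conj K L hL
  set i := f 0
  set j := f 1
  set c := f 2
  set l := f 3
  have hik : i ≠ c := fun h => absurd (hf h) (by decide)
  have hjl : j ≠ l := fun h => absurd (hf h) (by decide)
  obtain ⟨D, hD⟩ : ∃ D : L, D = dt (P 0) (P 1) * dt (P 0) (P 2) * dt (P 1) (P 2) := ⟨_, rfl⟩
  obtain ⟨h01, h02, h12⟩ := ne012 n
  have hD0 : D ≠ 0 := by
    rw [hD]
    exact mul_ne_zero (mul_ne_zero (hN _ _ h01) (hN _ _ h02)) (hN _ _ h12)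
  obtain ⟨T, hT⟩ : ∃ T : L, T = sc P i * sc P j * sc P c * sc P l / (D * D) := ⟨_, rfl⟩
  have hT0 : T ≠ 0 := by
    rw [hT]
    exact div_ne_zero (mul_ne_zero (mul_ne_zero (mul_ne_zero (sc_ne hN _) (sc_ne hN _))
      (sc_ne hN _)) (sc_ne hN _)) (mul_ne_zero hD0 hD0)
  obtain ⟨x, hx⟩ : ∃ x : L, x = T * (dt (P i) (P j) * dt (P c) (P l)) := ⟨_, rfl⟩
  obtain ⟨y, hy⟩ : ∃ y : L, y = T * (dt (P i) (P c) * dt (P j) (P l)) := ⟨_, rfl⟩
  obtain ⟨z, hz⟩ : ∃ z : L, z = T * (dt (P i) (P l) * dt (P j) (P c)) := ⟨_, rfl⟩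
  have hx1 : nw P i j * nw P c l = x := by
    unfold nw
    rw [hx, hT, ← hD]
    field_simp
  have hy1 : nw P i c * nw P j l = y := by
    unfold nw
    rw [hy, hT, ← hD]
    field_simp
  have hz1 : nw P i l * nw P j c = z := by
    unfold nw
    rw [hz, hT, ← hD]
    field_simp
  have hX : nu K P i j * nu K P c l = Algebra.norm K x := by
    unfold nu
    rw [← map_mul, hx1]
  have hY : nu K P i c * nu K P j l = Algebra.norm K y := by
    unfold nu
    rw [← map_mul, hy1]
  have hZ : nu K P i l * nu K P j c = Algebra.norm K z := by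
    unfold nu
    rw [← map_mul, hz1]
  have hxyz : x - y + z = 0 := by
    rw [hx, hy, hz]
    linear_combination T * plk (P i) (P j) (P c) (P l)
  have hxyz' : s x - s y + s z = 0 := by
    rw [← map_sub, ← map_add, hxyz, map_zero]
  have hy0 : y ≠ 0 := by
    rw [hy]
    exact mul_ne_zero hT0 (mul_ne_zero (hN _ _ hik) (hN _ _ hjl))
  have hsy0 : s y ≠ 0 := (map_ne_zero s).2 hy0
  unfold HN at hH
  rw [hX, hY, hZ] at hH
  have hH' := congrArg (algebraMap K L) hH
  simp only [map_sub, map_add, map_mul, map_pow, map_zero, map_ofNat, hs] at hH'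
  have hsq : (x * s y - s x * y) ^ 2 = 0 := by
    have e1 : z = y - x := by linear_combination hxyz
    have e2 : s z = s y - s x := by linear_combination hxyz'
    rw [e2, e1] at hH'
    linear_combination hH'
  have hxy : x * s y = s x * y := sub_eq_zero.1 (pow_eq_zero_iff (two_ne_zero) |>.1 hsq)
  have hcr : cr P i j c l = x / y := by
    unfold cr
    rw [hx, hy, mul_div_mul_left _ _ hT0]
  obtain ⟨q, hq⟩ := hfix (x / y) (by
    rw [map_div₀, div_eq_div_iff hsy0 hy0]
    exact hxy.symm)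
  exact ⟨q, by rw [hcr, hq]⟩

theorem eul : EulStmt := by
  intro K L _ _ _ _ hL n P hN f hf hE
  obtain ⟨s, hs, -⟩ := exists_conj K L hL
  set i := f 0
  set j := f 1
  set c := f 2
  set l := f 3
  set m := f 4
  obtain ⟨D, hD⟩ : ∃ D : L, D = dt (P 0) (P 1) * dt (P 0) (P 2) * dt (P 1) (P 2) := ⟨_, rfl⟩
  obtain ⟨h01, h02, h12⟩ := ne012 n
  have hD0 : D ≠ 0 := by
    rw [hD]
    exact mul_ne_zero (mul_ne_zero (hN _ _ h01) (hN _ _ h02)) (hN _ _ h12)
  obtain ⟨T, hT⟩ : ∃ T : L, T = sc P i * sc P j * sc P c * sc P l * (sc P m) ^ 2 /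
      (D * D * D) := ⟨_, rfl⟩
  have hT0 : T ≠ 0 := by
    rw [hT]
    exact div_ne_zero (mul_ne_zero (mul_ne_zero (mul_ne_zero (mul_ne_zero (sc_ne hN _)
      (sc_ne hN _)) (sc_ne hN _)) (sc_ne hN _)) (pow_ne_zero _ (sc_ne hN _)))
      (mul_ne_zero (mul_ne_zero hD0 hD0) hD0)
  -- the six terms
  have e1 : nw P i j * nw P c m * nw P l m =
      T * (dt (P i) (P j) * dt (P c) (P m) * dt (P l) (P m)) := by
    unfold nw
    rw [hT, ← hD]
    field_simp
  have e2 : nw P i c * nw P j m * nw P l m =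
      T * (dt (P i) (P c) * dt (P j) (P m) * dt (P l) (P m)) := by
    unfold nw
    rw [hT, ← hD]
    field_simp
  have e3 : nw P j l * nw P i m * nw P c m =
      T * (dt (P j) (P l) * dt (P i) (P m) * dt (P c) (P m)) := by
    unfold nw
    rw [hT, ← hD]
    field_simp
  have e4 : nw P c l * nw P i m * nw P j m =
      T * (dt (P c) (P l) * dt (P i) (P m) * dt (P j) (P m)) := by
    unfold nw
    rw [hT, ← hD]
    field_simp
  have e5 : nw P i l * nw P j m * nw P c m =
      T * (dt (P i) (P l) * dt (P j) (P m) * dt (P c) (P m)) := by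
    unfold nw
    rw [hT, ← hD]
    field_simp
  have e6 : nw P j c * nw P i m * nw P l m =
      T * (dt (P j) (P c) * dt (P i) (P m) * dt (P l) (P m)) := by
    unfold nw
    rw [hT, ← hD]
    field_simp
  obtain ⟨p, hp⟩ : ∃ p : L, p = T * (dt (P i) (P j) * dt (P c) (P m) * dt (P l) (P m)) := ⟨_, rfl⟩
  obtain ⟨q, hq⟩ : ∃ q : L, q = T * (dt (P j) (P c) * dt (P i) (P m) * dt (P l) (P m)) := ⟨_, rfl⟩
  obtain ⟨r, hr⟩ : ∃ r : L, r = T * (dt (P c) (P l) * dt (P i) (P m) * dt (P j) (P m)) := ⟨_, rfl⟩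
  have f2 : T * (dt (P i) (P c) * dt (P j) (P m) * dt (P l) (P m)) = p + q := by
    rw [hp, hq]
    linear_combination (-T * dt (P l) (P m)) * plk (P i) (P j) (P c) (P m)
  have f3 : T * (dt (P j) (P l) * dt (P i) (P m) * dt (P c) (P m)) = q + r := by
    rw [hq, hr]
    linear_combination (-T * dt (P i) (P m)) * plk (P j) (P c) (P l) (P m)
  have f5 : T * (dt (P i) (P l) * dt (P j) (P m) * dt (P c) (P m)) = p + q + r := by
    have h1 : T * (dt (P i) (P l) * dt (P j) (P m) * dt (P c) (P m)) =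
        p + T * (dt (P j) (P l) * dt (P i) (P m) * dt (P c) (P m)) := by
      rw [hp]
      linear_combination (-T * dt (P c) (P m)) * plk (P i) (P j) (P l) (P m)
    rw [h1, f3]
    ring
  rw [← hp] at e1
  rw [f2] at e2
  rw [f3] at e3
  rw [← hr] at e4
  rw [f5] at e5
  rw [← hq] at e6
  have hE' : Algebra.norm K p + Algebra.norm K (p + q) + Algebra.norm K (q + r) +
      Algebra.norm K r - Algebra.norm K (p + q + r) - Algebra.norm K q = 0 := by
    unfold EU nu at hE
    rw [← map_mul, ← map_mul, ← map_mul, ← map_mul, ← map_mul, ← map_mul, ← map_mul, ← map_mul,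
      ← map_mul, ← map_mul, ← map_mul, ← map_mul, e1, e2, e3, e4, e5, e6] at hE
    exact hE
  have hE2 := congrArg (algebraMap K L) hE'
  simp only [map_sub, map_add, map_zero, hs] at hE2
  have hprod : (p - r) * (s p - s r) = 0 := by linear_combination hE2
  have hpr : p = r := by
    rcases mul_eq_zero.1 hprod with h | h
    · exact sub_eq_zero.1 h
    · exact s.injective (sub_eq_zero.1 h)
  rw [hp, hr] at hpr
  exact mul_left_cancel₀ hT0 hpr

end Pool.Agent.Y734.N.RE
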